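import Pool.Agent.H459R3.NS.Four

/-!
Project CL of helper85: an unbounded smooth periodic solution has a singular point in the period cell.
-/

set_option autoImplicit false

open MeasureTheory Set Metric Filter Topology
open scoped ContDiff
open H459R3.NS

namespace Pool.Agent.Q285.CL

lemma shift (x : V) : ∃ m : K3, (x + fun i => (m i : ℝ)) ∈ cube := by
  refine ⟨fun i => -⌊x i⌋, ?_⟩
  constructor
  · intro i
    show (0 : ℝ) ≤ x i + ((-⌊x i⌋ : ℤ) : ℝ)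
    have := Int.floor_le (x i)
    push_cast
    linarith
  · intro i
    show x i + ((-⌊x i⌋ : ℤ) : ℝ) ≤ (1 : ℝ)
    have := (Int.lt_floor_add_one (x i)).le
    push_cast
    linarith

/-- an unbounded solution has a singular point -/
theorem sing {ν T : ℝ} {u : ℝ → V → V} {p : ℝ → V → ℝ} (h : IsSol ν T u p) (hν : 0 < ν)
    (hT : 0 < T) (hub : ¬ ∃ B : ℝ, ∀ t ∈ Ico 0 T, ∀ x, ‖u t x‖ ≤ B) :
    ∃ a ∈ cube, ∀ B δ : ℝ, 0 < δ → ∃ t ∈ Ioo (T - δ) T, 0 < t ∧ ∃ x ∈ closedBall a δ,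
      B < ‖u t x‖ := by
  by_contra hcon
  push Not at hcon
  apply hub
  -- near the final time
  have h1 : ∃ B δ : ℝ, 0 < δ ∧ ∀ t ∈ Ioo (T - δ) T, 0 < t → ∀ x ∈ cube, ‖u t x‖ ≤ B := by
    refine (isCompact_Icc : IsCompact (cube : Set V)).induction_on
      (p := fun s => ∃ B δ : ℝ, 0 < δ ∧ ∀ t ∈ Ioo (T - δ) T, 0 < t → ∀ x ∈ s, ‖u t x‖ ≤ B)
      ?_ ?_ ?_ ?_
    · exact ⟨0, 1, one_pos, fun t _ _ x hx => absurd hx (notMem_empty x)⟩
    · rintro s s' hs ⟨B, δ, hδ, hB⟩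
      exact ⟨B, δ, hδ, fun t ht h0 x hx => hB t ht h0 x (hs hx)⟩
    · rintro s s' ⟨B, δ, hδ, hB⟩ ⟨B', δ', hδ', hB'⟩
      refine ⟨max B B', min δ δ', lt_min hδ hδ', fun t ht h0 x hx => ?_⟩
      rcases hx with hx | hx
      · exact (hB t ⟨by linarith [ht.1, min_le_left δ δ'], ht.2⟩ h0 x hx).trans (le_max_left _ _)
      · exact (hB' t ⟨by linarith [ht.1, min_le_right δ δ'], ht.2⟩ h0 x hx).trans (le_max_right _ _)
    · intro a ha
      obtain ⟨B, δ, hδ, hB⟩ := hcon a ha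
      exact ⟨closedBall a δ, mem_nhdsWithin_of_mem_nhds (closedBall_mem_nhds a hδ), B, δ, hδ, hB⟩
  obtain ⟨B, δ, hδ, hB⟩ := h1
  -- the remaining times
  obtain ⟨T', hT'⟩ : ∃ T' : ℝ, T' = max 0 (T - δ / 2) := ⟨_, rfl⟩
  have hT'T : T' < T := by
    rw [hT']
    exact max_lt hT (by linarith)
  have hsub : Icc 0 T' ×ˢ (cube : Set V) ⊆ Ico 0 T ×ˢ univ := by
    rintro ⟨t, x⟩ ⟨ht, _⟩
    exact ⟨⟨ht.1, ht.2.trans_lt hT'T⟩, mem_univ _⟩
  have hcont : ContinuousOn (fun z : ℝ × V => u z.1 z.2) (Icc 0 T' ×ˢ (cube : Set V)) :=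
    h.smooth_u.continuousOn.mono hsub
  obtain ⟨B', hB'⟩ := (isCompact_Icc.prod (isCompact_Icc : IsCompact (cube : Set V))).exists_bound_of_continuousOn
    hcont
  have key : ∀ t ∈ Ico 0 T, ∀ x ∈ cube, ‖u t x‖ ≤ max B B' := by
    intro t ht x hx
    by_cases h2 : t ≤ T'
    · exact (hB' (t, x) ⟨⟨ht.1, h2⟩, hx⟩).trans (le_max_right _ _)
    · rw [not_le] at h2
      have h3 : T - δ < t := by
        have := le_max_right 0 (T - δ / 2)
        rw [← hT'] at this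
        linarith
      have h4 : 0 < t := by
        have := le_max_left 0 (T - δ / 2)
        rw [← hT'] at this
        linarith
      exact (hB t ⟨h3, ht.2⟩ h4 x hx).trans (le_max_left _ _)
  refine ⟨max B B', fun t ht x => ?_⟩
  obtain ⟨m, hm⟩ := shift x
  have h5 := (h.per_u t ht).int m x
  rw [← h5]
  exact key t ht _ hm

end Pool.Agent.Q285.CL
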