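import Pool.Agent.Q85.CL.Defs4
import Pool.Agent.Q284.CL.Dom

/-!
Project CL of helper85, job CL-WSC: scaling of a solution in the whole space to viscosity one.
-/

set_option autoImplicit false

open MeasureTheory Set Metric Filter Topology
open scoped ContDiff
open H459R3.NS Pool.Agent.W268.NS Pool.Agent.Q67.VD

namespace Pool.Agent.Q285.CL

open Pool.Agent.Q85.CC Pool.Agent.Q85.CL Pool.Agent.Q284.CL

theorem wsc : StmWSc := by
  intro ν T E u p hν hT h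
  have hdiv : ∀ t, t ∈ Ioo 0 (ν * T) → t / ν ∈ Ioo 0 T := by
    intro t ht
    refine ⟨div_pos ht.1 hν, ?_⟩
    rw [div_lt_iff₀ hν, mul_comm T ν]
    exact ht.2
  have hmaps : MapsTo (fun z : ℝ × V => (z.1 / ν, z.2)) (Ioo 0 (ν * T) ×ˢ (univ : Set V))
      (Ioo 0 T ×ˢ (univ : Set V)) := by
    rintro ⟨t, x⟩ ⟨ht, -⟩
    exact ⟨hdiv t ht, mem_univ _⟩
  have hlin : ContDiff ℝ ∞ (fun z : ℝ × V => (z.1 / ν, z.2)) := by fun_prop
  have e2 : ∀ t i j, pd j (fun y => (ν⁻¹ • u (t / ν) y) i) =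
      fun x => ν⁻¹ * pd j (fun y => u (t / ν) y i) x := by
    intro t i j
    funext x
    exact pd_cmulD ν⁻¹ j (fun y => u (t / ν) y i) x
  have hgsq : ∀ t x, W221.NS.gsq (fun x => ν⁻¹ • u (t / ν) x) x =
      (ν⁻¹) ^ 2 * W221.NS.gsq (u (t / ν)) x := by
    intro t x
    unfold W221.NS.gsq
    simp only [e2, mul_pow, Finset.mul_sum]
  have hnsq : ∀ t x, W221.NS.nsq (fun x => ν⁻¹ • u (t / ν) x) x =
      (ν⁻¹) ^ 2 * W221.NS.nsq (u (t / ν)) x := by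
    intro t x
    unfold W221.NS.nsq
    simp only [Pi.smul_apply, smul_eq_mul, mul_pow, Finset.mul_sum]
  refine ⟨?_, ?_, ?_, ?_, ?_, ?_, ?_, ?_⟩
  · exact (h.smooth_u.comp hlin.contDiffOn hmaps).const_smul ν⁻¹
  · exact (h.smooth_p.comp hlin.contDiffOn hmaps).const_smul ((ν⁻¹) ^ 2)
  · intro t ht x
    have h1 := h.divfree _ (hdiv t ht) x
    have h2 : ∀ i, pd i (fun y => (ν⁻¹ • u (t / ν) y) i) x =
        ν⁻¹ * pd i (fun y => u (t / ν) y i) x := fun i => by rw [e2 t i i]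
    rw [Finset.sum_congr rfl fun i _ => h2 i, ← Finset.mul_sum, h1, mul_zero]
  · intro t ht x i
    have h1 := h.momentum _ (hdiv t ht) x i
    have e1 : deriv (fun s => (ν⁻¹ • u (s / ν) x) i) t =
        ν⁻¹ * (ν⁻¹ * deriv (fun s => u s x i) (t / ν)) :=
      deriv_scaleD ν (fun s => u s x i) t
    have e3 : ∀ j, pd j (pd j (fun y => (ν⁻¹ • u (t / ν) y) i)) x =
        ν⁻¹ * pd j (pd j (fun y => u (t / ν) y i)) x := by
      intro j
      rw [e2 t i j]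
      exact pd_cmulD ν⁻¹ j _ x
    have e4 : pd i (fun x => (ν⁻¹) ^ 2 * p (t / ν) x) x = (ν⁻¹) ^ 2 * pd i (p (t / ν)) x :=
      pd_cmulD _ i _ x
    rw [e1, e4]
    simp_rw [e3, e2, Pi.smul_apply, smul_eq_mul]
    rw [← Finset.mul_sum, one_mul]
    have e5 : ∑ j, ν⁻¹ * u (t / ν) x j * (ν⁻¹ * pd j (fun y => u (t / ν) y i) x) =
        ν⁻¹ * (ν⁻¹ * ∑ j, u (t / ν) x j * pd j (fun y => u (t / ν) y i) x) := by
      rw [Finset.mul_sum, Finset.mul_sum]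
      refine Finset.sum_congr rfl fun j _ => ?_
      ring
    rw [e5]
    have e7 : ν⁻¹ * ν⁻¹ * ν = ν⁻¹ := by
      rw [mul_assoc, inv_mul_cancel₀ hν.ne', mul_one]
    rw [sq]
    have h2 := congrArg (fun z => ν⁻¹ * ν⁻¹ * z) h1
    simp only [mul_add, mul_sub] at h2
    rw [← mul_assoc, ← mul_assoc, h2, ← mul_assoc, e7]
  · intro t ht
    have h1 := (h.en_int _ (hdiv t ht)).const_mul ((ν⁻¹) ^ 2)
    exact h1.congr (Eventually.of_forall fun x => (hnsq t x).symm)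
  · intro t ht
    have h1 : ∫ x, W221.NS.nsq (fun x => ν⁻¹ • u (t / ν) x) x =
        (ν⁻¹) ^ 2 * ∫ x, W221.NS.nsq (u (t / ν)) x := by
      rw [← integral_const_mul]
      exact integral_congr_ae (Eventually.of_forall fun x => hnsq t x)
    have h2 : E / ν ^ 2 = (ν⁻¹) ^ 2 * E := by rw [inv_pow, div_eq_inv_mul]
    rw [h1, h2]
    exact mul_le_mul_of_nonneg_left (h.en _ (hdiv t ht)) (by positivity)
  · have hpre : Ioo 0 (ν * T) ×ˢ (univ : Set V) ⊆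
        (fun z : ℝ × V => (ν⁻¹ * z.1, z.2)) ⁻¹' (Ioo 0 T ×ˢ (univ : Set V)) := by
      rintro ⟨t, x⟩ ⟨ht, -⟩
      have := hdiv t ht
      rw [div_eq_inv_mul] at this
      exact ⟨this, mem_univ _⟩
    have h1 := ((intOn_scl (inv_pos.2 hν) h.dis).mono_set hpre).const_mul ((ν⁻¹) ^ 2)
    refine IntegrableOn.congr_fun h1 ?_ (measurableSet_Ioo.prod MeasurableSet.univ)
    rintro ⟨t, x⟩ ⟨ht, -⟩
    simp only
    rw [hgsq t x, div_eq_inv_mul]
  · intro R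
    have hpre : Ioo 0 (ν * T) ×ˢ ball (0 : V) R ⊆
        (fun z : ℝ × V => (ν⁻¹ * z.1, z.2)) ⁻¹' (Ioo 0 T ×ˢ ball (0 : V) R) := by
      rintro ⟨t, x⟩ ⟨ht, hx⟩
      have := hdiv t ht
      rw [div_eq_inv_mul] at this
      exact ⟨this, hx⟩
    have h1 := ((intOn_scl (inv_pos.2 hν) (h.prs R)).mono_set hpre).const_mul ((ν⁻¹) ^ 2)
    refine IntegrableOn.congr_fun h1 ?_ (measurableSet_Ioo.prod measurableSet_ball)
    rintro ⟨t, x⟩ ⟨ht, -⟩
    simp only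
    rw [div_eq_inv_mul]

end Pool.Agent.Q285.CL
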